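import Mathlib

namespace Pool.Agent.H.MP_7f2dba_nt
open Finset Polynomial

theorem kum (a n r1 r2 l : ℕ) (hn : 3 ^ a ∣ n) (h1 : 0 < r1) (h2 : 0 < r2) (h1n : r1 ≤ n)
    (hl : r1 + r2 ≤ 3 ^ (l + 1)) :
    3 ^ a ∣ 3 ^ l * ((n - r1) + (n - r2)).choose (n - r2) := by
  have : Fact (Nat.Prime 3) := ⟨Nat.prime_three⟩
  by_cases hal : a ≤ l
  · exact Dvd.dvd.mul_right (pow_dvd_pow 3 hal) _
  push Not at hal
  have hb : Nat.log 3 ((n - r1) + (n - r2)) < ((n - r1) + (n - r2)) + a + 1 := by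
    have := Nat.log_le_self 3 ((n - r1) + (n - r2)); omega
  have hv := padicValNat_choose' (p := 3) hb
  have hsub : Finset.Icc (l + 1) a ⊆ (Finset.Ico 1 (((n - r1) + (n - r2)) + a + 1)).filter
      (fun i => 3 ^ i ≤ (n - r2) % 3 ^ i + (n - r1) % 3 ^ i) := by
    intro i hi
    simp only [Finset.mem_Icc] at hi
    simp only [Finset.mem_filter, Finset.mem_Ico]
    refine ⟨⟨by omega, by omega⟩, ?_⟩
    have hd : 3 ^ i ∣ n := (pow_dvd_pow 3 hi.2).trans hn
    have hle : 3 ^ (l + 1) ≤ 3 ^ i := Nat.pow_le_pow_right (by norm_num) hi.1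
    obtain ⟨c, hc⟩ := hd
    have hc0 : 0 < c := by
      rcases Nat.eq_zero_or_pos c with h | h
      · subst h; omega
      · exact h
    obtain ⟨c, rfl⟩ : ∃ d, c = d + 1 := ⟨c - 1, by omega⟩
    have key : ∀ r, 0 < r → r ≤ 3 ^ i → (n - r) % 3 ^ i = 3 ^ i - r := by
      intro r hr hr'
      have : n - r = (3 ^ i - r) + 3 ^ i * c := by rw [hc, Nat.mul_succ]; omega
      rw [this, Nat.add_mul_mod_self_left, Nat.mod_eq_of_lt (by omega)]
    rw [key r1 h1 (by omega), key r2 h2 (by omega)]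
    omega
  have hc := Finset.card_le_card hsub
  rw [← hv, Nat.card_Icc] at hc
  have h3 : 3 ^ (a - l) ∣ ((n - r1) + (n - r2)).choose (n - r2) :=
    (pow_dvd_pow 3 (by omega)).trans pow_padicValNat_dvd
  have : 3 ^ a = 3 ^ l * 3 ^ (a - l) := by rw [← pow_add]; congr 1; omega
  rw [this]
  exact Nat.mul_dvd_mul_left _ h3

theorem vand (D j : ℕ) (hj : j ≤ D) :
    ∑ i ∈ range (D + 1), D.choose i ^ 2 * i.choose j = D.choose j * ((D - j) + D).choose D := by
  obtain ⟨E, rfl⟩ : ∃ E, D = j + E := ⟨D - j, by omega⟩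
  rw [show j + E + 1 = j + (E + 1) by ring, Finset.sum_range_add]
  rw [Finset.sum_eq_zero (fun i hi => by
    rw [Nat.choose_eq_zero_of_lt (k := j) (Finset.mem_range.1 hi)]; simp), zero_add]
  have h1 : (j + E - j + (j + E)).choose (j + E) = (E + (j + E)).choose E := by
    rw [Nat.add_sub_cancel_left]; exact Nat.choose_symm_add.symm
  rw [h1, Nat.add_choose_eq E (j + E) E, Finset.Nat.sum_antidiagonal_eq_sum_range_succ_mk, Finset.mul_sum]
  refine Finset.sum_congr rfl fun i hi => ?_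
  have hi' : i ≤ E := by simpa [Nat.lt_succ_iff] using hi
  have h2 := Nat.choose_mul (n := j + E) (k := j + i) (s := j) (by omega)
  simp only [Nat.add_sub_cancel_left] at h2
  have h3 : (j + E).choose (E - i) = (j + E).choose (j + i) := by
    rw [← Nat.choose_symm (show j + i ≤ j + E by omega)]; congr 1; omega
  simp only [h3]
  rw [sq, mul_assoc, h2]; ring

theorem coefA (N : ℕ) (y s : ℤ) :
    ((C y * X + C s * (1 + X) ^ 2) ^ N).coeff N =
      ∑ k ∈ range (N + 1), s ^ k * N.choose k * (2 * k).choose k * y ^ (N - k) := by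
  rw [add_comm, add_pow, finsetSum_coeff]
  refine Finset.sum_congr rfl fun k hk => ?_
  have hk' : k ≤ N := by simpa [Nat.lt_succ_iff] using hk
  have : (C s * (1 + X) ^ 2) ^ k * (C y * X) ^ (N - k) * (N.choose k : ℤ[X]) =
      C (s ^ k * y ^ (N - k) * N.choose k) * ((1 + X) ^ (2 * k) * X ^ (N - k)) := by
    simp only [map_mul, map_pow, map_natCast, mul_pow, ← pow_mul]; ring
  rw [this, coeff_C_mul, coeff_mul_X_pow', if_pos (by omega), coeff_one_add_X_pow,
    show N - (N - k) = k by omega]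
  ring

theorem flip (N : ℕ) (m : ℤ) :
    ∑ k ∈ range (N + 1), (-1) ^ k * (N.choose k : ℤ) * (2 * k).choose k * m ^ (N - k) =
      ∑ k ∈ range (N + 1), (N.choose k : ℤ) * (2 * k).choose k * (m - 4) ^ (N - k) := by
  have h1 := coefA N m (-1)
  have h2 := coefA N (m - 4) 1
  simp only [one_pow, one_mul] at h2
  rw [← h1, ← h2]
  have h3 : ((C m * X + C (-1 : ℤ) * (1 + X) ^ 2) ^ N).comp (C (-1 : ℤ) * X) =
      C ((-1) ^ N) * (C (m - 4) * X + C 1 * (1 + X) ^ 2) ^ N := by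
    rw [map_pow, ← mul_pow, pow_comp]
    congr 1
    simp only [add_comp, mul_comp, C_comp, X_comp, pow_comp, one_comp, map_neg, map_one, map_sub,
      neg_comp]
    have : (C (4 : ℤ) : ℤ[X]) = 4 := rfl
    rw [this]; ring
  have h4 := congrArg (fun p => p.coeff N) h3
  simp only [comp_C_mul_X_coeff, coeff_C_mul] at h4
  have h5 : ((-1 : ℤ) ^ N) ≠ 0 := pow_ne_zero _ (by norm_num)
  apply mul_left_cancel₀ h5
  rw [← h4]; ring

end Pool.Agent.H.MP_7f2dba_nt
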