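import Pool.Agent.H.MP_7f2dba_nt.A

namespace Pool.Agent.H.MP_7f2dba_nt
open Finset Polynomial

theorem coefW (N : ℕ) (u v : ℂ) :
    (((X + C u) * (X + C v)) ^ N).coeff N =
      ∑ k ∈ range (N + 1), (N.choose k : ℂ) ^ 2 * (u ^ (N - k) * v ^ k) := by
  rw [mul_pow, coeff_mul, Finset.Nat.sum_antidiagonal_eq_sum_range_succ_mk]
  refine Finset.sum_congr rfl fun k hk => ?_
  have hk' : k ≤ N := by simpa [Nat.lt_succ_iff] using hk
  simp only [coeff_X_add_C_pow]
  rw [Nat.choose_symm hk', show N - (N - k) = k by omega]; ring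

theorem sum3 {R : Type*} [AddCommMonoid R] (f : ℕ → R) (M : ℕ) :
    ∑ k ∈ range (3 * M), f k = ∑ i ∈ range M, (f (3 * i) + f (3 * i + 1) + f (3 * i + 2)) := by
  induction M with
  | zero => simp
  | succ M ih =>
    rw [show 3 * (M + 1) = 3 * M + 1 + 1 + 1 by ring, sum_range_succ, sum_range_succ,
      sum_range_succ, ih, sum_range_succ]
    simp only [add_assoc]

theorem twoT (D : ℕ) :
    2 * ∑ k ∈ range (3 * D + 2 + 1), ((3 * D + 2).choose k : ℤ) * (2 * k).choose k *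
        (-3) ^ (3 * D + 2 - k) =
      ∑ i ∈ range (D + 1), (2 * ((3 * D + 2).choose (3 * i + 1) : ℤ) ^ 2 -
        ((3 * D + 2).choose (3 * i) : ℤ) ^ 2 - ((3 * D + 2).choose (3 * i + 2) : ℤ) ^ 2) := by
  set N := 3 * D + 2 with hN
  obtain ⟨w, hw⟩ : ∃ w : ℂ, w ^ 2 + w + 1 = 0 := by
    refine ⟨(-1 + Real.sqrt 3 * Complex.I) / 2, ?_⟩
    have h3 : ((Real.sqrt 3 : ℝ) : ℂ) ^ 2 = 3 := by
      rw [← Complex.ofReal_pow, Real.sq_sqrt (by norm_num)]; norm_num
    have hI := Complex.I_sq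
    linear_combination (Complex.I ^ 2 / 4) * h3 + (3 / 4) * hI
  have hw3 : w ^ 3 = 1 := by linear_combination (w - 1) * hw
  have h1 := coefA N (-3) 1
  simp only [one_pow, one_mul] at h1
  rw [← h1]
  have hp : ((C (-3 : ℤ) * X + C 1 * (1 + X) ^ 2) ^ N).map (Int.castRingHom ℂ) =
      ((X + C w) * (X + C (w ^ 2))) ^ N := by
    rw [Polynomial.map_pow]; congr 1
    have e1 : (C w : ℂ[X]) ^ 2 + C w + 1 = 0 := by
      have := congrArg (C : ℂ → ℂ[X]) hw; simpa using this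
    have e3 : (C (3 : ℤ) : ℤ[X]) = 3 := rfl
    simp only [map_neg, e3, map_one, Polynomial.map_add, Polynomial.map_mul, Polynomial.map_neg,
      Polynomial.map_pow, map_X, Polynomial.map_one, map_pow, Polynomial.map_ofNat]
    linear_combination (-X - C w + 1) * e1
  have hc : ((((C (-3 : ℤ) * X + C 1 * (1 + X) ^ 2) ^ N).coeff N : ℤ) : ℂ) =
      (((X + C w) * (X + C (w ^ 2))) ^ N).coeff N := by
    rw [← hp, coeff_map]; rfl
  have ha := coefW N w (w ^ 2)
  have hb := coefW N (w ^ 2) w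
  rw [mul_comm (X + C (w ^ 2))] at hb
  apply Int.cast_injective (α := ℂ)
  rw [Int.cast_mul, hc, show ((2 : ℤ) : ℂ) = 1 + 1 by norm_num, add_mul, one_mul]
  nth_rewrite 1 [ha]
  rw [hb, ← sum_add_distrib, show N + 1 = 3 * (D + 1) by omega, sum3]
  push_cast
  refine Finset.sum_congr rfl fun i hi => ?_
  have hi' : i ≤ D := by simpa [Nat.lt_succ_iff] using hi
  obtain ⟨E, rfl⟩ : ∃ E, D = i + E := ⟨D - i, by omega⟩
  have q0 : N - 3 * i = 3 * E + 2 := by omega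
  have q1 : N - (3 * i + 1) = 3 * E + 1 := by omega
  have q2 : N - (3 * i + 2) = 3 * E := by omega
  have p3 : ∀ t : ℕ, w ^ (3 * t) = 1 := fun t => by rw [pow_mul, hw3, one_pow]
  have p6 : ∀ t : ℕ, (w ^ 2) ^ (3 * t) = 1 := fun t => by
    rw [← pow_mul, mul_comm 2, mul_assoc, p3]
  simp only [q0, q1, q2, pow_add, p3, p6, pow_one, one_mul, mul_one]
  have w4 : (w ^ 2) ^ 2 = w := by linear_combination w * hw3
  rw [w4]
  linear_combination (((N.choose (3 * i) : ℂ)) ^ 2 + ((N.choose (3 * i + 2) : ℂ)) ^ 2) * hw +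
    2 * ((N.choose (3 * i + 1) : ℂ)) ^ 2 * hw3

theorem chs (N k : ℕ) : (N.choose (k + 1) : ℤ) * (k + 1) = N.choose k * ((N : ℤ) - k) := by
  by_cases h : k ≤ N
  · have := Nat.choose_succ_right_eq N k
    have h2 := congrArg (Nat.cast : ℕ → ℤ) this
    push_cast [h] at h2
    exact h2
  · push Not at h
    rw [Nat.choose_eq_zero_of_lt h, Nat.choose_eq_zero_of_lt (by omega)]; simp

theorem prodId (D i : ℕ) :
    ((3 * D + 2).choose (3 * i) : ℤ) * ∏ t ∈ range i, ((3 * (t : ℤ) + 1) * (3 * t + 2)) =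
      D.choose i * ∏ t ∈ range i, ((3 * ((D : ℤ) + 1) - (3 * t + 1)) *
        (3 * ((D : ℤ) + 1) - (3 * t + 2))) := by
  induction i with
  | zero => simp
  | succ i ih =>
    rw [prod_range_succ, prod_range_succ]
    have a0 := chs (3 * D + 2) (3 * i)
    have a1 := chs (3 * D + 2) (3 * i + 1)
    have a2 := chs (3 * D + 2) (3 * i + 1 + 1)
    have a3 := chs D i
    rw [show 3 * (i + 1) = 3 * i + 1 + 1 + 1 by ring]
    push_cast at a0 a1 a2 a3
    have hne : (3 * ((i : ℤ) + 1)) ≠ 0 := by positivity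
    apply mul_left_cancel₀ hne
    set F := ∏ t ∈ range i, ((3 * (t : ℤ) + 1) * (3 * t + 2))
    set G := ∏ t ∈ range i, ((3 * ((D : ℤ) + 1) - (3 * t + 1)) * (3 * ((D : ℤ) + 1) - (3 * t + 2)))
    set c0 := ((3 * D + 2).choose (3 * i) : ℤ)
    set c1 := ((3 * D + 2).choose (3 * i + 1) : ℤ)
    set c2 := ((3 * D + 2).choose (3 * i + 1 + 1) : ℤ)
    set c3 := ((3 * D + 2).choose (3 * i + 1 + 1 + 1) : ℤ)
    linear_combination (F * (3 * i + 1) * (3 * i + 2)) * a2 +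
      (F * (3 * i + 1) * (3 * D - 3 * i)) * a1 + (F * (3 * D - 3 * i) * (3 * D + 1 - 3 * i)) * a0 +
      ((3 * D - 3 * i) * (3 * D + 1 - 3 * i) * (3 * D + 2 - 3 * i)) * ih -
      (3 * G * (3 * D + 1 - 3 * i) * (3 * D + 2 - 3 * i)) * a3

end Pool.Agent.H.MP_7f2dba_nt
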