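import Pool.Agent.H.MP_7f2dba_nt.B

namespace Pool.Agent.H.MP_7f2dba_nt
open Finset

theorem newton {R : Type*} [CommRing R] (D K : ℕ) (w : R) (v : ℕ → R) (h3 : (3 : R) ^ K = 0)
    (h2 : IsUnit (2 : R)) (hv : ∀ i : ℕ, v i * ((3 * i + 1) * (3 * i + 2)) = 1)
    (hw : ∀ j : ℕ, 1 ≤ j → j ≤ D →
      w * (3 ^ j * ((D.choose j * ((D - j) + D).choose D : ℕ) : R)) = 0) :
    2 * ∑ i ∈ range (D + 1), w * (D.choose i : R) ^ 2 * v i = w * ((D + D).choose D : ℕ) := by
  have P0 : ∀ j : ℕ, 1 ≤ j →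
      ∑ i ∈ range (D + 1), w * (D.choose i : R) ^ 2 * (3 ^ j * (i.choose j : R)) = 0 := by
    intro j hj
    by_cases hjD : j ≤ D
    · rw [← hw j hj hjD, ← vand D j hjD]
      push_cast
      rw [mul_sum, mul_sum]
      exact sum_congr rfl fun i _ => by ring
    · refine sum_eq_zero fun i hi => ?_
      have := mem_range.1 hi
      rw [Nat.choose_eq_zero_of_lt (n := i) (k := j) (by omega)]; simp
  have P : ∀ r j : ℕ, 1 ≤ r + j → ∑ i ∈ range (D + 1),
      w * (D.choose i : R) ^ 2 * ((3 * (i : R)) ^ r * (3 ^ j * (i.choose j : R))) = 0 := by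
    intro r
    induction r with
    | zero => intro j hj; simpa using P0 j (by omega)
    | succ r ih =>
      intro j _
      have e1 := ih (j + 1) (by omega)
      have e2 : (j : R) * ∑ i ∈ range (D + 1),
          w * (D.choose i : R) ^ 2 * ((3 * (i : R)) ^ r * (3 ^ j * (i.choose j : R))) = 0 := by
        rcases Nat.eq_zero_or_pos j with h | h
        · subst h; simp
        · rw [ih j (by omega), mul_zero]
      have : ∑ i ∈ range (D + 1),
          w * (D.choose i : R) ^ 2 * ((3 * (i : R)) ^ (r + 1) * (3 ^ j * (i.choose j : R))) =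
          ((j : R) + 1) * ∑ i ∈ range (D + 1), w * (D.choose i : R) ^ 2 *
            ((3 * (i : R)) ^ r * (3 ^ (j + 1) * (i.choose (j + 1) : R))) +
          3 * ((j : R) * ∑ i ∈ range (D + 1),
          w * (D.choose i : R) ^ 2 * ((3 * (i : R)) ^ r * (3 ^ j * (i.choose j : R)))) := by
        rw [mul_sum, mul_sum, mul_sum, ← sum_add_distrib]
        refine sum_congr rfl fun i _ => ?_
        have c := congrArg (Int.cast : ℤ → R) (chs i j)
        push_cast at c
        linear_combination (-(w * (D.choose i : R) ^ 2 * (3 * (i : R)) ^ r * 3 ^ (j + 1))) * c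
      rw [this, e1, e2]; simp
  set Q : ℕ → R := fun r => ∑ i ∈ range (D + 1),
    w * (D.choose i : R) ^ 2 * ((3 * (i : R)) ^ r * v i) with hQ
  have rec1 : ∀ r : ℕ, 2 * Q r + 3 * Q (r + 1) + Q (r + 2) = ∑ i ∈ range (D + 1),
      w * (D.choose i : R) ^ 2 * ((3 * (i : R)) ^ r * (3 ^ 0 * (i.choose 0 : R))) := by
    intro r
    simp only [hQ]
    rw [mul_sum, mul_sum, ← sum_add_distrib, ← sum_add_distrib]
    refine sum_congr rfl fun i _ => ?_
    simp only [Nat.choose_zero_right, Nat.cast_one]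
    linear_combination (w * (D.choose i : R) ^ 2 * (3 * (i : R)) ^ r) * hv i
  have big : ∀ r : ℕ, K ≤ r → Q r = 0 := by
    intro r hr
    refine sum_eq_zero fun i _ => ?_
    obtain ⟨d, rfl⟩ := Nat.exists_eq_add_of_le hr
    rw [mul_pow, pow_add, h3]; simp
  have down : ∀ d r : ℕ, 1 ≤ r → K ≤ r + d → Q r = 0 := by
    intro d
    induction d with
    | zero => intro r _ h; exact big r h
    | succ d ih =>
      intro r h1 h
      have := rec1 r
      rw [P r 0 (by omega), ih (r + 1) (by omega) (by omega), ih (r + 2) (by omega) (by omega)]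
        at this
      exact h2.mul_right_eq_zero.1 (by simpa using this)
  have := rec1 0
  rw [down K 1 le_rfl (by omega), down K 2 (by omega) (by omega)] at this
  simp only [hQ, pow_zero, one_mul, mul_zero, add_zero, Nat.choose_zero_right, Nat.cast_one,
    mul_one] at this
  rw [this]
  have hv0 := vand D 0 (Nat.zero_le _)
  simp only [Nat.choose_zero_right, mul_one, one_mul, Nat.sub_zero] at hv0
  rw [← hv0]; push_cast; rw [mul_sum]

theorem mainR {R : Type*} [CommRing R] (D a : ℕ) (ha : 3 ^ a ∣ D + 1)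
    (h3 : (3 : R) ^ (2 * a + 2) = 0) :
    ∑ i ∈ range (D + 1), (2 * ((3 * D + 2).choose (3 * i + 1) : R) ^ 2 -
        ((3 * D + 2).choose (3 * i) : R) ^ 2 - ((3 * D + 2).choose (3 * i + 2) : R) ^ 2) +
      3 * ((D : R) + 1) * (((D + D).choose D : ℕ) : R) = 0 := by
  have hnil : IsNilpotent (3 : R) := ⟨_, h3⟩
  have u1 : ∀ x : R, IsUnit (3 * x + 1) := fun x =>
    ((Commute.all _ _).isNilpotent_mul_right hnil).isUnit_add_one
  have u2 : ∀ x : R, IsUnit (3 * x + 2) := fun x => by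
    have := (u1 (-(x + 1))).neg
    convert this using 1; ring
  have h2 : IsUnit (2 : R) := by simpa using u2 0
  have hv : ∀ i : ℕ, ∃ v : R, v * ((3 * i + 1) * (3 * i + 2)) = 1 := fun i =>
    ((u1 i).mul (u2 i)).exists_left_inv
  choose v hv using hv
  set n : R := 3 * ((D : R) + 1) with hn
  have hz : ∀ x : ℕ, 3 ^ (a + 1) ∣ x → n * (x : R) = 0 := by
    rintro x ⟨c, rfl⟩
    obtain ⟨d, hd⟩ := ha
    have hd' : (D : R) + 1 = 3 ^ a * d := by exact_mod_cast congrArg (Nat.cast : ℕ → R) hd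
    rw [hn, hd']; push_cast
    linear_combination ((d : R) * c) * h3
  have hnn : n * n = 0 := by
    have := hz (3 * (D + 1)) (by rw [pow_succ']; exact Nat.mul_dvd_mul_left 3 ha)
    push_cast at this; exact this
  have hN := newton D (2 * a + 2) n v h3 h2 hv (fun j hj hjD => by
    have hk := kum a (D + 1) (j + 1) 1 (j - 1) ha (by omega) (by omega) (by omega) (by
      rw [show j - 1 + 1 = j by omega]
      obtain ⟨t, rfl⟩ : ∃ t, j = t + 1 := ⟨j - 1, by omega⟩
      have := Nat.lt_pow_self (n := t) (show 1 < 3 by norm_num)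
      rw [pow_succ]; omega)
    rw [show D + 1 - (j + 1) = D - j by omega, Nat.add_sub_cancel] at hk
    have := hz (3 ^ j * (D.choose j * ((D - j) + D).choose D)) (by
      obtain ⟨t, rfl⟩ : ∃ t, j = t + 1 := ⟨j - 1, by omega⟩
      rw [Nat.add_sub_cancel] at hk
      obtain ⟨c, hc⟩ := hk
      exact ⟨c * D.choose (t + 1), by
        rw [pow_succ, pow_succ]; linear_combination (3 * D.choose (t + 1)) * hc⟩)
    simpa using this)
  rw [← hN, mul_sum, ← sum_add_distrib]
  refine sum_eq_zero fun i _ => ?_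
  have a0 := congrArg (Int.cast : ℤ → R) (chs (3 * D + 2) (3 * i))
  have a1 := congrArg (Int.cast : ℤ → R) (chs (3 * D + 2) (3 * i + 1))
  have pid := congrArg (Int.cast : ℤ → R) (prodId D i)
  push_cast at a0 a1 pid
  rw [← hn] at pid
  have hF : IsUnit (∏ t ∈ range i, ((3 * (t : R) + 1) * (3 * t + 2))) :=
    IsUnit.prod_iff.2 fun t _ => (u1 t).mul (u2 t)
  have hG : ∀ i : ℕ, n * ∏ t ∈ range i, ((n - (3 * (t : R) + 1)) * (n - (3 * t + 2))) =
      n * ∏ t ∈ range i, ((3 * (t : R) + 1) * (3 * t + 2)) := by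
    intro i
    induction i with
    | zero => simp
    | succ i ih =>
      rw [prod_range_succ, prod_range_succ]
      linear_combination ((n - (3 * (i : R) + 1)) * (n - (3 * i + 2))) * ih +
        ((∏ t ∈ range i, ((3 * (t : R) + 1) * (3 * t + 2))) * (n - 6 * i - 3)) * hnn
  have hA : n * ((3 * D + 2).choose (3 * i) : R) = n * (D.choose i : R) := by
    apply hF.mul_right_cancel
    linear_combination n * pid + (D.choose i : R) * hG i
  rw [show 3 * i + 1 + 1 = 3 * i + 2 by ring] at a1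
  set c0 := ((3 * D + 2).choose (3 * i) : R)
  set c1 := ((3 * D + 2).choose (3 * i + 1) : R)
  set c2 := ((3 * D + 2).choose (3 * i + 2) : R)
  set c := (D.choose i : R)
  set p : R := 3 * i + 1 with hp
  set q : R := 3 * i + 2 with hq
  have b0 : c1 * p = c0 * (n - p) := by rw [hn, hp]; linear_combination a0
  have b1 : c2 * q = c1 * (n - q) := by rw [hn, hq]; linear_combination a1
  have hA2 : n * c0 ^ 2 = n * c ^ 2 := by linear_combination (c0 + c) * hA
  have hvi : v i * (p * q) = 1 := hv i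
  have hqp : q = p + 1 := by rw [hp, hq]; ring
  have hu : IsUnit ((p * q) ^ 2) := ((u1 i).mul (u2 i)).pow 2
  apply hu.mul_left_cancel
  have b2 : c2 * (p * q) = c0 * (n - p) * (n - q) := by linear_combination p * b1 + (n - q) * b0
  have e1 : (c1 * p) ^ 2 = c0 ^ 2 * (p ^ 2 - 2 * n * p) := by
    rw [b0]; linear_combination c0 ^ 2 * hnn
  have e2 : (c2 * (p * q)) ^ 2 = c0 ^ 2 * ((p * q) ^ 2 - 2 * n * (p * q) * (p + q)) := by
    rw [b2]
    linear_combination (c0 ^ 2 * (n ^ 2 - 2 * n * (p + q) + (p + q) ^ 2 + 2 * p * q)) * hnn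
  have e3 : (p * q) ^ 2 * (n * c ^ 2 * v i) = n * c0 ^ 2 * (p * q) := by
    rw [hA2]; linear_combination (n * c ^ 2 * (p * q)) * hvi
  linear_combination (2 * q ^ 2) * e1 - e2 + 2 * e3 - (2 * n * c0 ^ 2 * (p * q)) * hqp

theorem mainT (D a : ℕ) (ha : 3 ^ a ∣ D + 1) :
    (3 : ℤ) ^ (2 * a + 2) ∣ 2 * ∑ k ∈ range (3 * D + 2 + 1), ((3 * D + 2).choose k : ℤ) *
      (2 * k).choose k * (-3) ^ (3 * D + 2 - k) + 3 * (D + 1) * ((D + D).choose D : ℕ) := by
  rw [twoT]
  have hcast : ((3 : ℤ) ^ (2 * a + 2)) = ((3 ^ (2 * a + 2) : ℕ) : ℤ) := by push_cast; rfl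
  rw [hcast, ← ZMod.intCast_zmod_eq_zero_iff_dvd]
  have h3 : (3 : ZMod (3 ^ (2 * a + 2))) ^ (2 * a + 2) = 0 := by
    have := ZMod.natCast_self (3 ^ (2 * a + 2)); push_cast at this; exact this
  have := mainR D a ha h3
  push_cast
  exact this

end Pool.Agent.H.MP_7f2dba_nt
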