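import Pool.Agent.H.MP_7f2dba_nt.C

namespace Pool.Agent.H.MP_7f2dba_nt
open Finset

theorem dv {a b c : ℤ} (h : a ∣ b) (e : c = b) : a ∣ c := by rw [e]; exact h

theorem dpow (t : ℤ) (l : ℕ) : ∃ z : ℤ, (3 * t - 3) ^ l - (-3) ^ l = 3 ^ l * t * z := by
  obtain ⟨z, hz⟩ := sub_dvd_pow_sub_pow (t - 1) (-1) l
  refine ⟨z, ?_⟩
  rw [show 3 * t - 3 = 3 * (t - 1) by ring, show (-3 : ℤ) = 3 * (-1) by ring, mul_pow, mul_pow,
    ← mul_sub, hz]; ring

theorem kumc (a N k l : ℕ) (ha : 3 ^ a ∣ N + 1) (hk : k ≤ N)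
    (hl : 2 * (N - k) + 2 ≤ 3 ^ (l + 1)) : (3 : ℤ) ^ a ∣ 3 ^ l * ((2 * k).choose k : ℤ) := by
  have := kum a (N + 1) (N - k + 1) (N - k + 1) l ha (by omega) (by omega) (by omega) (by omega)
  rw [show N + 1 - (N - k + 1) = k by omega, ← two_mul] at this
  exact_mod_cast this

theorem pw1 (l : ℕ) : 2 * l + 2 ≤ 3 ^ (l + 1) := by
  induction l with
  | zero => norm_num
  | succ l ih => rw [pow_succ]; omega

theorem pw2 (l : ℕ) : 2 * (l + 2) + 2 ≤ 3 ^ (l + 1 + 1) := by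
  have := pw1 l
  rw [pow_succ]; omega

theorem diff1 (a N : ℕ) (t : ℤ) (ha : 3 ^ a ∣ N + 1) :
    3 ^ a * t ∣ ∑ k ∈ range (N + 1), (N.choose k : ℤ) * (2 * k).choose k * (3 * t - 3) ^ (N - k) -
      ∑ k ∈ range (N + 1), (N.choose k : ℤ) * (2 * k).choose k * (-3) ^ (N - k) := by
  rw [← sum_sub_distrib]
  refine dvd_sum fun k hk => ?_
  have hk' : k ≤ N := by simpa [Nat.lt_succ_iff] using hk
  obtain ⟨z, hz⟩ := dpow t (N - k)
  obtain ⟨c, hc⟩ := kumc a N k (N - k) ha hk' (pw1 _)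
  exact ⟨N.choose k * z * c, by
    rw [← mul_sub, hz]; linear_combination (N.choose k * t * z) * hc⟩

theorem diff2 (a E : ℕ) (t : ℤ) (ha : 3 ^ a ∣ E + 1 + 1) :
    3 ^ (a + 1) * t ∣ ∑ k ∈ range (E + 1 + 1), ((E + 1).choose k : ℤ) * (2 * k).choose k *
        (3 * t - 3) ^ (E + 1 - k) -
      ∑ k ∈ range (E + 1 + 1), ((E + 1).choose k : ℤ) * (2 * k).choose k * (-3) ^ (E + 1 - k) -
      (E + 1) * (2 * E).choose E * (3 * t) := by
  rw [← sum_sub_distrib, sum_range_succ, sum_range_succ]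
  simp only [Nat.sub_self, pow_zero, sub_self, add_zero, Nat.add_sub_cancel_left, pow_one,
    Nat.choose_succ_self_right]
  push_cast
  rw [show ∀ x y : ℤ, x + (((E : ℤ) + 1) * y * (3 * t - 3) - (E + 1) * y * (-3)) -
    (E + 1) * y * (3 * t) = x from fun x y => by ring]
  refine dvd_sum fun k hk => ?_
  have hk' : k < E := by simpa using hk
  obtain ⟨l, hl⟩ : ∃ l, E + 1 - k = l + 2 := ⟨E + 1 - k - 2, by omega⟩
  obtain ⟨z, hz⟩ := dpow t (E + 1 - k)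
  obtain ⟨c, hc⟩ := kumc a (E + 1) k (l + 1) ha (by omega) (by rw [hl]; exact pw2 l)
  exact ⟨(E + 1).choose k * z * c, by
    rw [← mul_sub, hz, hl]; linear_combination (3 * (E + 1).choose k * t * z) * hc⟩

theorem cb3 (b : ℕ) : (2 * 3 ^ b).choose (3 ^ b) % 3 = 2 := by
  have : Fact (Nat.Prime 3) := ⟨Nat.prime_three⟩
  induction b with
  | zero => norm_num
  | succ b ih =>
    have := Choose.choose_modEq_choose_mod_mul_choose_div_nat (n := 2 * 3 ^ (b + 1))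
      (k := 3 ^ (b + 1)) (p := 3)
    rw [show 2 * 3 ^ (b + 1) % 3 = 0 by rw [pow_succ]; omega,
      show 3 ^ (b + 1) % 3 = 0 by rw [pow_succ]; omega,
      show 2 * 3 ^ (b + 1) / 3 = 2 * 3 ^ b by rw [pow_succ]; omega,
      show 3 ^ (b + 1) / 3 = 3 ^ b by rw [pow_succ]; omega] at this
    simp only [Nat.choose_self, one_mul] at this
    rw [this, ih]

theorem cbs (k : ℕ) : ((k : ℤ) + 1) * ((2 * (k + 1)).choose (k + 1) : ℕ) =
    2 * (2 * k + 1) * ((2 * k).choose k : ℕ) := by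
  have := Nat.succ_mul_centralBinom_succ k
  simp only [Nat.centralBinom] at this
  exact_mod_cast this

theorem Tdiv (D a : ℕ) (ha : 3 ^ a ∣ D + 1) :
    (3 : ℤ) ^ (2 * a + 1) ∣ ∑ k ∈ range (3 * D + 2 + 1), ((3 * D + 2).choose k : ℤ) *
      (2 * k).choose k * (-3) ^ (3 * D + 2 - k) := by
  have h1 := (pow_dvd_pow (3 : ℤ) (show 2 * a + 1 ≤ 2 * a + 2 by omega)).trans (mainT D a ha)
  have h2 : (3 : ℤ) ^ (2 * a + 1) ∣ 3 * (D + 1) * ((D + D).choose D : ℕ) := by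
    obtain ⟨c, hc⟩ := kumc a D D 0 ha le_rfl (by simp)
    obtain ⟨d, hd⟩ := ha
    have hd' : (D : ℤ) + 1 = 3 ^ a * d := by exact_mod_cast hd
    rw [pow_zero, one_mul, two_mul] at hc
    exact ⟨d * c, by rw [hc, hd']; ring⟩
  have h3 := (dvd_add_left h2).1 h1
  exact (IsCoprime.pow_left (by norm_num [Int.isCoprime_iff_gcd_eq_one])).dvd_of_dvd_mul_left h3

theorem Tcong (D b : ℕ) (hD : D + 1 = 3 ^ (b + 1)) :
    (3 : ℤ) ^ (2 * (b + 1) + 2) ∣ ∑ k ∈ range (3 * D + 2 + 1), ((3 * D + 2).choose k : ℤ) *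
      (2 * k).choose k * (-3) ^ (3 * D + 2 - k) + 3 ^ (2 * (b + 1) + 1) := by
  have h1 := mainT D (b + 1) (by rw [hD])
  obtain ⟨c, hc⟩ := kumc (b + 1) D D 0 (by rw [hD]) le_rfl (by simp)
  have hd' : (D : ℤ) + 1 = 3 ^ (b + 1) := by exact_mod_cast hD
  rw [pow_zero, one_mul] at hc
  have h2 := cbs D
  have h3 := cb3 (b + 1)
  rw [← hD] at h3
  obtain ⟨z, hz⟩ : ∃ z : ℤ, (((2 * (D + 1)).choose (D + 1) : ℕ) : ℤ) = 3 * z + 2 :=
    ⟨((2 * (D + 1)).choose (D + 1) / 3 : ℕ), by omega⟩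
  rw [hz, hc, hd'] at h2
  have h4 : 3 * z + 2 = 2 * (2 * D + 1) * c := by
    apply mul_left_cancel₀ (show (3 : ℤ) ^ (b + 1) ≠ 0 by positivity)
    linear_combination h2
  have h5 : (D : ℤ) = 3 * 3 ^ b - 1 := by linear_combination hd'
  obtain ⟨y, hy⟩ : (3 : ℤ) ∣ c - 2 := by
    rw [h5] at h4
    have : (3 : ℤ) ∣ 2 * (c - 2) := ⟨4 * 3 ^ b * c - z - 2, by linear_combination h4⟩
    omega
  rw [two_mul D] at hc
  rw [hc, hd'] at h1
  have h6 : (3 : ℤ) ^ (2 * (b + 1) + 2) ∣ 2 * (∑ k ∈ range (3 * D + 2 + 1),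
      ((3 * D + 2).choose k : ℤ) * (2 * k).choose k * (-3) ^ (3 * D + 2 - k) +
      3 ^ (2 * (b + 1) + 1)) := by
    have := dvd_sub h1 (dvd_mul_right ((3 : ℤ) ^ (2 * (b + 1) + 2)) y)
    refine dv this ?_
    linear_combination (-(3 : ℤ) ^ (2 * (b + 1) + 1)) * hy
  exact (IsCoprime.pow_left (by norm_num [Int.isCoprime_iff_gcd_eq_one])).dvd_of_dvd_mul_left h6

theorem Zcong (E b : ℕ) (hE : E + 1 + 1 = 3 ^ (b + 2)) :
    ∃ y : ℤ, (((2 * E).choose E : ℕ) : ℤ) = 3 ^ (b + 1) * (3 * y + 1) := by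
  obtain ⟨c, hc⟩ := kumc (b + 2) (E + 1) E 1 (by rw [hE]) (by omega) (by simp)
  have hc' : (((2 * E).choose E : ℕ) : ℤ) = 3 ^ (b + 1) * c := by
    apply mul_left_cancel₀ (show (3 : ℤ) ≠ 0 by norm_num); linear_combination hc
  have hd' : (E : ℤ) = 9 * 3 ^ b - 2 := by
    have : (E : ℤ) + 1 + 1 = 3 ^ (b + 2) := by exact_mod_cast hE
    linear_combination this
  have h1 := cbs E
  have h2 := cbs (E + 1)
  have h3 := cb3 (b + 2)
  rw [← hE] at h3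
  obtain ⟨z, hz⟩ : ∃ z : ℤ, (((2 * (E + 1 + 1)).choose (E + 1 + 1) : ℕ) : ℤ) = 3 * z + 2 :=
    ⟨((2 * (E + 1 + 1)).choose (E + 1 + 1) / 3 : ℕ), by omega⟩
  rw [hz] at h2
  rw [hc'] at h1
  push_cast at h2
  set Y := (((2 * (E + 1)).choose (E + 1) : ℕ) : ℤ)
  set u : ℤ := 3 ^ b with hu
  have h4 : (9 * u - 1) * (3 * z + 2) = 4 * (18 * u - 1) * (6 * u - 1) * c := by
    apply mul_left_cancel₀ (show 9 * u ≠ 0 by positivity)
    rw [hd'] at h1 h2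
    rw [pow_succ, ← hu] at h1
    linear_combination (9 * u - 1) * h2 + 2 * (18 * u - 1) * h1
  obtain ⟨y, hy⟩ : (3 : ℤ) ∣ c - 1 := by
    have : (3 : ℤ) ∣ 4 * (c - 1) :=
      ⟨9 * u * z + 6 * u - z - 2 - 144 * u ^ 2 * c + 32 * u * c, by linear_combination -h4⟩
    omega
  exact ⟨y, by rw [hc']; congr 1; linear_combination hy⟩

theorem valq (I d : ℤ) (e : ℕ) (hd : d ≠ 0) (h : (3 : ℤ) ^ e ∣ I) :
    (I : ℚ) / d = 0 ∨ (e : ℤ) - padicValInt 3 d ≤ padicValRat 3 ((I : ℚ) / d) := by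
  have : Fact (Nat.Prime 3) := ⟨Nat.prime_three⟩
  by_cases hI : I = 0
  · left; simp [hI]
  right
  rw [padicValRat.div (by exact_mod_cast hI) (by exact_mod_cast hd), padicValRat.of_int,
    padicValRat.of_int]
  have := (padicValInt_dvd_iff (p := 3) e I).1 (by exact_mod_cast h)
  rcases this with h0 | h0
  · exact absurd h0 hI
  · omega

theorem valm (m : ℤ) (hm : m % 3 = 1) (N : ℕ) : padicValInt 3 (m ^ N) = 0 := by
  apply padicValInt.eq_zero_of_not_dvd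
  intro h
  have := Int.Prime.dvd_pow' (p := 3) Nat.prime_three h
  push_cast at this
  omega

end Pool.Agent.H.MP_7f2dba_nt
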